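import Mathlib
import Pool.Agent.N757.AS.Stm

/-!
# Project AS, part COP: Davenport-Zannier pairs are coprime (helper383 for helper757)
-/

set_option autoImplicit false

namespace Pool.Agent.N383.AS

open Polynomial UniqueFactorizationMonoid

theorem t : Pool.Agent.N757.AS.StmCop := by
  intro k _ _ a b A B ha hb hA hB hAd hBd hne hdeg
  classical
  have hA0 : A ≠ 0 := hA.ne_zero
  have hB0 : B ≠ 0 := hB.ne_zero
  obtain ⟨x, y, D, hrel, hx, hy⟩ := exists_reduced_factors (A ^ a) (pow_ne_zero a hA0) (B ^ b)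
  have hcop : IsCoprime x y := hrel.isCoprime
  have hDx : D * x ≠ 0 := by rw [hx]; exact pow_ne_zero a hA0
  have hDy : D * y ≠ 0 := by rw [hy]; exact pow_ne_zero b hB0
  have hD0 : D ≠ 0 := left_ne_zero_of_mul hDx
  have hx0 : x ≠ 0 := right_ne_zero_of_mul hDx
  have hy0 : y ≠ 0 := right_ne_zero_of_mul hDy
  have hz0 : x - y ≠ 0 := by
    intro h
    rw [sub_eq_zero] at h
    exact hne (by rw [← hx, ← hy, h])
  have hdiff : A ^ a - B ^ b = D * (x - y) := by rw [← hx, ← hy, mul_sub]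
  have hdP : D.natDegree + x.natDegree = a * b := by
    rw [← natDegree_mul hD0 hx0, hx, natDegree_pow, hAd]
  have hdz : (A ^ a - B ^ b).natDegree = D.natDegree + (x - y).natDegree := by
    rw [hdiff, natDegree_mul hD0 hz0]
  rcases Polynomial.abc hx0 (neg_ne_zero.2 hy0) (neg_ne_zero.2 hz0) hcop.neg_right (by ring) with
    ⟨h1, -, -⟩ | ⟨h1, -, -⟩
  · by_contra hnc
    obtain ⟨A1, B1, g, hrel1, hA1, hB1⟩ := exists_reduced_factors A hA0 B
    have hg0 : g ≠ 0 := left_ne_zero_of_mul (by rw [hA1]; exact hA0)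
    have hA10 : A1 ≠ 0 := right_ne_zero_of_mul (by rw [hA1]; exact hA0)
    have hB10 : B1 ≠ 0 := right_ne_zero_of_mul (by rw [hB1]; exact hB0)
    have hg1 : 1 ≤ g.natDegree := by
      by_contra hg
      have hg2 : g.natDegree = 0 := by omega
      refine hnc ?_
      have hu : IsUnit g := by
        rw [eq_C_of_natDegree_eq_zero hg2]
        refine isUnit_C.2 (isUnit_iff_ne_zero.2 fun h => hg0 ?_)
        rw [eq_C_of_natDegree_eq_zero hg2, h, C_0]
      rw [← hA1, ← hB1]
      exact (isCoprime_mul_unit_left hu A1 B1).2 hrel1.isCoprime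
    have hgA : g.natDegree + A1.natDegree = b := by rw [← natDegree_mul hg0 hA10, hA1, hAd]
    have hgB : g.natDegree + B1.natDegree = a := by rw [← natDegree_mul hg0 hB10, hB1, hBd]
    have hd1 : x * -y * -(x - y) ∣ (g * A1 * B1 * (x - y)) ^ (a + b + 1) := by
      have e1 : x ∣ (g * A1 * B1 * (x - y)) ^ a := by
        have e2 : x ∣ A ^ a := ⟨D, by rw [← hx]; ring⟩
        refine e2.trans (pow_dvd_pow_of_dvd ?_ a)
        rw [← hA1]
        exact ⟨B1 * (x - y), by ring⟩
      have e3 : -y ∣ (g * A1 * B1 * (x - y)) ^ b := by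
        have e4 : -y ∣ B ^ b := ⟨-D, by rw [← hy]; ring⟩
        refine e4.trans (pow_dvd_pow_of_dvd ?_ b)
        rw [← hB1]
        exact ⟨A1 * (x - y), by ring⟩
      have e5 : -(x - y) ∣ g * A1 * B1 * (x - y) := ⟨-(g * A1 * B1), by ring⟩
      rw [pow_succ, pow_add]
      exact mul_dvd_mul (mul_dvd_mul e1 e3) e5
    have hw0 : x * -y * -(x - y) ≠ 0 :=
      mul_ne_zero (mul_ne_zero hx0 (neg_ne_zero.2 hy0)) (neg_ne_zero.2 hz0)
    have hd2 : radical (x * -y * -(x - y)) ∣ g * A1 * B1 * (x - y) :=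
      (exists_dvd_pow_iff_radical_dvd hw0).1 ⟨_, hd1⟩
    have hd3 := natDegree_le_of_dvd hd2
      (mul_ne_zero (mul_ne_zero (mul_ne_zero hg0 hA10) hB10) hz0)
    rw [natDegree_mul (mul_ne_zero (mul_ne_zero hg0 hA10) hB10) hz0,
      natDegree_mul (mul_ne_zero hg0 hA10) hB10, natDegree_mul hg0 hA10] at hd3
    omega
  · have hx1 : x.natDegree = 0 := derivative_eq_zero.1 h1
    omega

end Pool.Agent.N383.AS

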